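import Mathlib

set_option autoImplicit false

namespace Pool.Agent.Results.MP_4aa424_co.FirstFitChordal

/-- `G` is chordal: every cycle `c 0, c 1, …, c (m-1)` of length `m ≥ 4` has a chord, that is, an
edge joining two distinct vertices of the cycle that are not consecutive on it. -/
def IsChordal {V : Type} (G : SimpleGraph V) : Prop :=
  ∀ m : ℕ, 4 ≤ m → ∀ c : ZMod m → V, Function.Injective c → (∀ i, G.Adj (c i) (c (i + 1))) →
    ∃ i j, i ≠ j ∧ j ≠ i + 1 ∧ i ≠ j + 1 ∧ G.Adj (c i) (c j)

/-- `c` is the First-Fit colouring of `G` for the ordering of the vertices by increasing value of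
`ord`: each vertex `v` gets the least positive integer not used on an earlier neighbour. -/
def IsFirstFit {V : Type} (G : SimpleGraph V) (ord c : V → ℕ) : Prop :=
  ∀ v, IsLeast {a : ℕ | 1 ≤ a ∧ ∀ u, ord u < ord v → G.Adj u v → c u ≠ a} (c v)

/-- The First-Fit chromatic number: the largest number of colours used by a First-Fit colouring,
over all orderings of the vertices. -/
noncomputable def ffNumber {V : Type} [Fintype V] (G : SimpleGraph V) : ℕ :=
  sSup {t : ℕ | ∃ ord c : V → ℕ, Function.Injective ord ∧ IsFirstFit G ord c ∧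
    (Set.range c).ncard = t}

lemma le_ff {V : Type} [Fintype V] (G : SimpleGraph V) (f : V → ℕ) (hpos : ∀ v, 1 ≤ f v)
    (hproper : ∀ u v, G.Adj u v → f u ≠ f v)
    (hwall : ∀ v a, 1 ≤ a → a < f v → ∃ u, G.Adj u v ∧ f u = a) (v0 : V) :
    f v0 ≤ ffNumber G := by
  classical
  set N := Fintype.card V with hN
  let e := Fintype.equivFin V
  let ord : V → ℕ := fun v => f v * N + (e v).val
  have hlt : ∀ v, (e v).val < N := fun v => (e v).isLt
  have hmono : ∀ u v, f u < f v → ord u < ord v := by
    intro u v huv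
    have h1 : (f u + 1) * N ≤ f v * N := Nat.mul_le_mul_right _ huv
    have h2 := hlt u
    show f u * N + (e u).val < f v * N + (e v).val
    nlinarith
  have hinj : Function.Injective ord := by
    intro u v huv
    have h1 : f u = f v := by
      rcases Nat.lt_trichotomy (f u) (f v) with h | h | h
      · have := hmono u v h; omega
      · exact h
      · have := hmono v u h; omega
    have h2 : (e u).val = (e v).val := by
      have : f u * N + (e u).val = f v * N + (e v).val := huv
      rw [h1] at this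
      omega
    exact e.injective (Fin.ext h2)
  have hmem : (Set.range f).ncard ∈ {t : ℕ | ∃ ord c : V → ℕ, Function.Injective ord ∧
      IsFirstFit G ord c ∧ (Set.range c).ncard = t} := by
    refine ⟨ord, f, hinj, ?_, rfl⟩
    intro v
    refine ⟨⟨hpos v, fun u _ huv => hproper u v huv⟩, ?_⟩
    rintro a ⟨ha1, ha2⟩
    by_contra hlt'
    obtain ⟨u, huv, hua⟩ := hwall v a ha1 (by omega)
    exact ha2 u (hmono u v (by omega)) huv hua
  have hbdd : BddAbove {t : ℕ | ∃ ord c : V → ℕ, Function.Injective ord ∧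
      IsFirstFit G ord c ∧ (Set.range c).ncard = t} := by
    refine ⟨N, ?_⟩
    rintro t ⟨_, c, _, _, rfl⟩
    rw [← Set.image_univ]
    calc (c '' Set.univ).ncard ≤ (Set.univ : Set V).ncard := Set.ncard_image_le (Set.toFinite _)
      _ = N := by rw [Set.ncard_univ, Nat.card_eq_fintype_card]
  refine le_trans ?_ (le_csSup hbdd hmem)
  have hsub : (Finset.Icc 1 (f v0) : Set ℕ) ⊆ Set.range f := by
    intro a ha
    rw [Finset.coe_Icc, Set.mem_Icc] at ha
    rcases Nat.lt_or_ge a (f v0) with h | h
    · obtain ⟨u, _, hu⟩ := hwall v0 a ha.1 h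
      exact ⟨u, hu⟩
    · exact ⟨v0, by omega⟩
  calc f v0 = (Finset.Icc 1 (f v0) : Set ℕ).ncard := by
        rw [Set.ncard_coe_finset]; simp
    _ ≤ (Set.range f).ncard := Set.ncard_le_ncard hsub (Set.toFinite _)

/-- chordality from a perfect elimination structure -/
lemma chordal_of {V : Type} (G : SimpleGraph V) (R : V → V → Prop) (ord : V → ℕ)
    (hR : ∀ u v, G.Adj u v → R u v ∨ R v u) (hord : ∀ u v, R u v → ord u < ord v)
    (hpeo : ∀ u v w, R u v → R w v → u ≠ w → G.Adj u w) : IsChordal G := by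
  intro m hm c hc hadj
  have : NeZero m := ⟨by omega⟩
  obtain ⟨i, _, hi⟩ := Finset.exists_max_image (Finset.univ : Finset (ZMod m))
    (fun i => ord (c i)) ⟨0, Finset.mem_univ _⟩
  have hcast : ∀ a : ℕ, 0 < a → a < m → ((a : ℕ) : ZMod m) ≠ 0 := by
    intro a ha ham h
    rw [ZMod.natCast_eq_zero_iff] at h
    exact absurd (Nat.le_of_dvd ha h) (by omega)
  have h2 : (2 : ZMod m) ≠ 0 := by exact_mod_cast hcast 2 (by norm_num) (by omega)
  have h3 : (3 : ZMod m) ≠ 0 := by exact_mod_cast hcast 3 (by norm_num) (by omega)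
  have h1 : (1 : ZMod m) ≠ 0 := by exact_mod_cast hcast 1 (by norm_num) (by omega)
  have hA : R (c (i + 1)) (c i) := by
    rcases hR _ _ (hadj i) with h | h
    · have := hord _ _ h
      have := hi (i + 1) (Finset.mem_univ _)
      omega
    · exact h
  have hB : R (c (i - 1)) (c i) := by
    have hadj' := hadj (i - 1)
    rw [sub_add_cancel] at hadj'
    rcases hR _ _ hadj' with h | h
    · exact h
    · have := hord _ _ h
      have := hi (i - 1) (Finset.mem_univ _)
      omega
  have hne : c (i + 1) ≠ c (i - 1) := by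
    intro h
    have := hc h
    apply h2
    linear_combination this
  refine ⟨i + 1, i - 1, ?_, ?_, ?_, hpeo _ _ _ hA hB hne⟩
  · intro h
    apply h2
    linear_combination h
  · intro h
    apply h3
    linear_combination -h
  · intro h
    apply h1
    linear_combination h

section construction

variable (m s k p : ℕ)

/-- the vertex set: blow-up of the binomial tree on the subsets of `Fin m`, a clique, and isolated
vertices -/
abbrev Vt := (Finset (Fin m) × Fin s) ⊕ (Fin k ⊕ Fin p)

variable {m s k p}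

def Par (X Y : Finset (Fin m)) : Prop := ∃ i, (∀ j ∈ X, i < j) ∧ Y = insert i X

lemma par_unique {X X' Y : Finset (Fin m)} (h : Par X Y) (h' : Par X' Y) : X = X' := by
  obtain ⟨i, hi, rfl⟩ := h
  obtain ⟨i', hi', he⟩ := h'
  have hii' : i = i' := by
    have h1 : i ∈ insert i' X' := by rw [← he]; exact Finset.mem_insert_self _ _
    have h2 : i' ∈ insert i X := by rw [he]; exact Finset.mem_insert_self _ _
    rw [Finset.mem_insert] at h1 h2
    rcases h1 with h1 | h1
    · exact h1
    · rcases h2 with h2 | h2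
      · exact h2.symm
      · have := hi _ h2
        have := hi' _ h1
        omega
  subst hii'
  have e1 : i ∉ X := fun h => lt_irrefl _ (hi i h)
  have e2 : i ∉ X' := fun h => lt_irrefl _ (hi' i h)
  rw [← Finset.erase_insert e1, he, Finset.erase_insert e2]

lemma par_card {X Y : Finset (Fin m)} (h : Par X Y) : Y.card = X.card + 1 := by
  obtain ⟨i, hi, rfl⟩ := h
  exact Finset.card_insert_of_notMem (fun h => lt_irrefl _ (hi i h))

noncomputable def lev (X : Finset (Fin m)) : ℕ := sInf {n | n = m ∨ ∃ j ∈ X, j.val = n}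

lemma lev_mem (X : Finset (Fin m)) : lev X = m ∨ ∃ j ∈ X, j.val = lev X :=
  Nat.sInf_mem (s := {n | n = m ∨ ∃ j ∈ X, j.val = n}) ⟨m, Or.inl rfl⟩

lemma lev_le (X : Finset (Fin m)) {j : Fin m} (hj : j ∈ X) : lev X ≤ j.val :=
  Nat.sInf_le (Or.inr ⟨j, hj, rfl⟩)

lemma lev_le_m (X : Finset (Fin m)) : lev X ≤ m := Nat.sInf_le (Or.inl rfl)

lemma lt_lev {X : Finset (Fin m)} {i : Fin m} (h : ∀ j ∈ X, i < j) : i.val < lev X := by
  rcases lev_mem X with h1 | ⟨j, hj, h1⟩
  · rw [h1]; exact i.isLt
  · rw [← h1]; exact h j hj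

lemma lev_insert {X : Finset (Fin m)} {i : Fin m} (h : ∀ j ∈ X, i < j) :
    lev (insert i X) = i.val := by
  apply le_antisymm
  · exact lev_le _ (Finset.mem_insert_self _ _)
  · rcases lev_mem (insert i X) with h1 | ⟨j, hj, h1⟩
    · rw [h1]; exact i.isLt.le
    · rw [← h1]
      rw [Finset.mem_insert] at hj
      rcases hj with rfl | hj
      · exact le_rfl
      · exact (h j hj).le

lemma lev_empty : lev (∅ : Finset (Fin m)) = m := by
  rcases lev_mem (∅ : Finset (Fin m)) with h | ⟨j, hj, _⟩
  · exact h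
  · simp at hj

def Rel : Vt m s k p → Vt m s k p → Prop
  | Sum.inl (X, a), Sum.inl (Y, b) => (X = Y ∧ a < b) ∨ Par X Y
  | Sum.inr (Sum.inl a), Sum.inr (Sum.inl b) => a < b
  | _, _ => False

def ord : Vt m s k p → ℕ
  | Sum.inl (X, a) => X.card * s + a.val
  | Sum.inr (Sum.inl a) => a.val
  | Sum.inr (Sum.inr _) => 0

noncomputable def f : Vt m s k p → ℕ
  | Sum.inl (X, a) => lev X * s + a.val + 1
  | Sum.inr (Sum.inl a) => a.val + 1
  | Sum.inr (Sum.inr _) => 1

lemma rel_ord (u v : Vt m s k p) (h : Rel u v) : ord u < ord v := by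
  rcases u with ⟨X, a⟩ | u | u <;> rcases v with ⟨Y, b⟩ | v | v <;> simp only [Rel] at h
  · rcases h with ⟨rfl, h⟩ | h
    · simp only [ord]
      omega
    · simp only [ord]
      rw [par_card h, add_mul, one_mul]
      omega
  · exact h

/-- the graph -/
def Gr : SimpleGraph (Vt m s k p) where
  Adj u v := Rel u v ∨ Rel v u
  symm := ⟨fun _ _ h => h.symm⟩
  loopless := ⟨fun v h => by
    rcases h with h | h <;> exact absurd (rel_ord v v h) (lt_irrefl _)⟩

lemma peo (u v w : Vt m s k p) (huv : Rel u v) (hwv : Rel w v) (hne : u ≠ w) :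
    (Gr : SimpleGraph (Vt m s k p)).Adj u w := by
  show Rel u w ∨ Rel w u
  rcases u with ⟨X, a⟩ | u | u <;> rcases v with ⟨Y, b⟩ | v | v <;>
    rcases w with ⟨Z, c⟩ | w | w <;> simp only [Rel] at huv hwv
  · simp only [Rel]
    rcases huv with ⟨rfl, h⟩ | h <;> rcases hwv with ⟨rfl, h'⟩ | h'
    · have : a ≠ c := fun h => hne (by rw [h])
      rcases lt_or_gt_of_ne this with h1 | h1
      · exact Or.inl (Or.inl ⟨rfl, h1⟩)
      · exact Or.inr (Or.inl ⟨rfl, h1⟩)
    · exact Or.inr (Or.inr h')
    · exact Or.inl (Or.inr h)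
    · have := par_unique h h'
      subst this
      have : a ≠ c := fun h => hne (by rw [h])
      rcases lt_or_gt_of_ne this with h1 | h1
      · exact Or.inl (Or.inl ⟨rfl, h1⟩)
      · exact Or.inr (Or.inl ⟨rfl, h1⟩)
  · simp only [Rel]
    have : u ≠ w := fun h => hne (by rw [h])
    exact lt_or_gt_of_ne this

lemma chordal : IsChordal (Gr : SimpleGraph (Vt m s k p)) :=
  chordal_of _ Rel ord (fun _ _ h => h) rel_ord peo

lemma f_proper (u v : Vt m s k p) (h : Rel u v) : f u ≠ f v := by
  rcases u with ⟨X, a⟩ | u | u <;> rcases v with ⟨Y, b⟩ | v | v <;> simp only [Rel] at h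
  · rcases h with ⟨rfl, h⟩ | h
    · simp only [f]
      omega
    · obtain ⟨i, hi, rfl⟩ := h
      simp only [f]
      rw [lev_insert hi]
      have h1 := lt_lev hi
      have h2 : (i.val + 1) * s ≤ lev X * s := Nat.mul_le_mul_right _ h1
      have h3 := b.isLt
      intro h4
      have : i.val * s + s ≤ lev X * s := by rw [← Nat.succ_mul]; exact h2
      omega
  · simp only [f]
    omega

lemma f_wall (hs : 1 ≤ s) (v : Vt m s k p) (a : ℕ) (ha : 1 ≤ a) (hav : a < f v) :
    ∃ u, (Gr : SimpleGraph (Vt m s k p)).Adj u v ∧ f u = a := by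
  rcases v with ⟨X, b⟩ | v | v
  · simp only [f] at hav
    set q := (a - 1) / s with hq
    set r := (a - 1) % s with hr
    have hrs : r < s := Nat.mod_lt _ hs
    have hqr : q * s + r = a - 1 := by
      rw [hq, hr, mul_comm]; exact Nat.div_add_mod _ _
    have hb := b.isLt
    have hle : q ≤ lev X := by
      by_contra hlt
      have : (lev X + 1) * s ≤ q * s := Nat.mul_le_mul_right _ (by omega)
      rw [Nat.succ_mul] at this
      omega
    rcases Nat.lt_or_ge q (lev X) with h | h
    · have hqm : q < m := lt_of_lt_of_le h (lev_le_m X)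
      have hall : ∀ j ∈ X, (⟨q, hqm⟩ : Fin m) < j := by
        intro j hj
        have := lev_le X hj
        exact Fin.lt_def.2 (by show q < j.val; omega)
      refine ⟨Sum.inl (insert ⟨q, hqm⟩ X, ⟨r, hrs⟩), Or.inr ?_, ?_⟩
      · exact Or.inr ⟨_, hall, rfl⟩
      · simp only [f]
        rw [lev_insert hall]
        show q * s + r + 1 = a
        omega
    · have hqe : q = lev X := by omega
      refine ⟨Sum.inl (X, ⟨r, hrs⟩), Or.inl ?_, ?_⟩
      · refine Or.inl ⟨rfl, Fin.lt_def.2 ?_⟩
        show r < b.val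
        rw [hqe] at hqr
        omega
      · simp only [f]
        show lev X * s + r + 1 = a
        rw [← hqe]
        omega
  · simp only [f] at hav
    have hv := v.isLt
    refine ⟨Sum.inr (Sum.inl ⟨a - 1, by omega⟩), Or.inl ?_, ?_⟩
    · show (⟨a - 1, _⟩ : Fin k) < v
      exact Fin.lt_def.2 (by show a - 1 < v.val; omega)
    · show a - 1 + 1 = a
      omega
  · simp only [f] at hav
    omega

lemma ff_bound (hs : 1 ≤ s) : (m + 1) * s ≤ ffNumber (Gr : SimpleGraph (Vt m s k p)) := by
  have h := le_ff (Gr : SimpleGraph (Vt m s k p)) f ?_ ?_ (f_wall hs)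
    (Sum.inl (∅, ⟨s - 1, by omega⟩))
  · simp only [f, lev_empty] at h
    refine le_trans ?_ h
    rw [Nat.succ_mul]
    omega
  · intro v
    rcases v with ⟨X, a⟩ | v | v <;> simp only [f] <;> omega
  · intro u v huv
    rcases huv with h | h
    · exact f_proper u v h
    · exact (f_proper v u h).symm

/-- a proper colouring with `k` colours -/
def col : Vt m s k p → ℕ
  | Sum.inl (X, a) => (X.card % 2) * s + a.val
  | Sum.inr (Sum.inl a) => a.val
  | Sum.inr (Sum.inr _) => 0

lemma col_proper (u v : Vt m s k p) (h : Rel u v) : col u ≠ col v := by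
  rcases u with ⟨X, a⟩ | u | u <;> rcases v with ⟨Y, b⟩ | v | v <;> simp only [Rel] at h
  · have ha := a.isLt
    have hb := b.isLt
    rcases h with ⟨rfl, h⟩ | h
    · simp only [col]
      omega
    · simp only [col]
      rw [par_card h]
      rcases Nat.mod_two_eq_zero_or_one X.card with h1 | h1
      · have h2 : (X.card + 1) % 2 = 1 := by omega
        rw [h1, h2]
        omega
      · have h2 : (X.card + 1) % 2 = 0 := by omega
        rw [h1, h2]
        omega
  · simp only [col]
    omega

lemma colorable (hk : 1 ≤ k) (hsk : 2 * s ≤ k) : (Gr : SimpleGraph (Vt m s k p)).Colorable k := by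
  have hlt : ∀ v : Vt m s k p, col v < k := by
    intro v
    rcases v with ⟨X, a⟩ | v | v
    · simp only [col]
      have ha := a.isLt
      rcases Nat.mod_two_eq_zero_or_one X.card with h1 | h1
      · rw [h1]; omega
      · rw [h1]; omega
    · exact v.isLt
    · simp only [col]; omega
  refine ⟨SimpleGraph.Coloring.mk (fun v => (⟨col v, hlt v⟩ : Fin k)) ?_⟩
  intro u v huv h
  simp only [Fin.mk.injEq] at h
  rcases huv with h' | h'
  · exact col_proper u v h' h
  · exact col_proper v u h' h.symm

lemma clique_num (hk : 1 ≤ k) (hsk : 2 * s ≤ k) :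
    (Gr : SimpleGraph (Vt m s k p)).cliqueNum = k := by
  apply le_antisymm
  · obtain ⟨S, hS⟩ := (Gr : SimpleGraph (Vt m s k p)).exists_isNClique_cliqueNum
    rw [← hS.2]
    exact hS.1.card_le_of_colorable (colorable hk hsk)
  · have h : (Gr : SimpleGraph (Vt m s k p)).IsClique
        ((Finset.univ.map ⟨fun a : Fin k => (Sum.inr (Sum.inl a) : Vt m s k p),
          fun a b hab => by simpa using hab⟩ : Finset (Vt m s k p)) : Set (Vt m s k p)) := by
      intro u hu v hv huv
      simp only [Finset.coe_map, Function.Embedding.coeFn_mk, Finset.coe_univ, Set.image_univ,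
        Set.mem_range] at hu hv
      obtain ⟨a, rfl⟩ := hu
      obtain ⟨b, rfl⟩ := hv
      have : a ≠ b := fun h => huv (by rw [h])
      exact lt_or_gt_of_ne this
    have := h.card_le_cliqueNum
    simpa using this

end construction

/-- Theorem. There is an absolute constant `c > 0` such that for every `k ≥ 2` and every
`n ≥ k²` there is a chordal graph with `n` vertices, clique number `k` and First-Fit chromatic
number at least `c k log n`. -/
theorem result : ∃ c : ℝ, 0 < c ∧ ∀ k : ℕ, 2 ≤ k → ∀ n : ℕ, k ^ 2 ≤ n →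
    ∃ (V : Type) (_ : Fintype V) (G : SimpleGraph V), Fintype.card V = n ∧ IsChordal G ∧
      G.cliqueNum = k ∧ c * k * Real.log n ≤ ffNumber G := by
  refine ⟨1 / 6, by norm_num, ?_⟩
  intro k hk n hn
  set s := k / 2 with hs
  have hs1 : 1 ≤ s := by omega
  have h2s : 2 * s ≤ k := by omega
  have h3s : k ≤ 3 * s := by omega
  have hkn : 2 * k ≤ n := by nlinarith
  set q := (n - k) / s with hq
  have hqpos : q ≠ 0 := by
    have : 0 < (n - k) / s := Nat.div_pos (by omega) (by omega)
    omega
  set m := Nat.log 2 q with hm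
  have hm1 : 2 ^ m ≤ q := Nat.pow_log_le_self 2 hqpos
  have hm2 : q < 2 ^ (m + 1) := Nat.lt_pow_succ_log_self (by norm_num) q
  have hsize : s * 2 ^ m ≤ n - k := by
    calc s * 2 ^ m ≤ s * q := Nat.mul_le_mul_left _ hm1
      _ ≤ n - k := Nat.mul_div_le _ _
  have hsize2 : n - k < s * 2 ^ (m + 1) := by
    have h1 : (n - k) < s * (q + 1) := by
      rw [hq]
      exact Nat.lt_mul_div_succ _ (by omega)
    calc n - k < s * (q + 1) := h1
      _ ≤ s * 2 ^ (m + 1) := Nat.mul_le_mul_left _ (by omega)
  refine ⟨Vt m s k (n - k - s * 2 ^ m), inferInstance, Gr, ?_, chordal, clique_num (by omega) h2s, ?_⟩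
  · simp only [Fintype.card_sum, Fintype.card_prod, Fintype.card_finset, Fintype.card_fin]
    rw [mul_comm (2 ^ m) s]
    omega
  · have hff : (m + 1) * s ≤ ffNumber (Gr : SimpleGraph (Vt m s k (n - k - s * 2 ^ m))) :=
      ff_bound hs1
    -- n ≤ (2^(m+1))^2
    set M := 2 ^ (m + 1) with hM
    have hMk : n < M * k := by
      have h1 : 2 * (n - k) < k * M := by
        calc 2 * (n - k) < 2 * (s * M) := by omega
          _ = (2 * s) * M := by ring
          _ ≤ k * M := Nat.mul_le_mul_right _ h2s
      have h2 : n ≤ 2 * (n - k) := by omega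
      calc n ≤ 2 * (n - k) := h2
        _ < k * M := h1
        _ = M * k := by ring
    have hM2 : n < M ^ 2 := by
      by_contra hge
      push Not at hge
      have h1 : n * n < (M * k) * (M * k) := Nat.mul_lt_mul'' hMk hMk
      have h2 : (M * k) * (M * k) = M ^ 2 * k ^ 2 := by ring
      have h3 : M ^ 2 * k ^ 2 ≤ n * n := Nat.mul_le_mul hge hn
      omega
    have hlog : Real.log n ≤ 2 * (m + 1) := by
      have hn0 : (0 : ℝ) < n := by
        have : 0 < n := by omega
        exact_mod_cast this
      have h1 : Real.log n ≤ Real.log ((2 : ℝ) ^ (2 * (m + 1))) := by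
        apply Real.log_le_log hn0
        have : n ≤ 2 ^ (2 * (m + 1)) := by
          rw [mul_comm, pow_mul]
          exact hM2.le
        exact_mod_cast this
      rw [Real.log_pow] at h1
      have h2 : Real.log 2 ≤ 1 := by
        have := Real.log_two_lt_d9
        linarith
      have h3 : (0 : ℝ) ≤ ((2 * (m + 1) : ℕ) : ℝ) := Nat.cast_nonneg _
      calc Real.log n ≤ ((2 * (m + 1) : ℕ) : ℝ) * Real.log 2 := h1
        _ ≤ ((2 * (m + 1) : ℕ) : ℝ) * 1 := mul_le_mul_of_nonneg_left h2 h3
        _ = 2 * (m + 1) := by push_cast; ring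
    have hk3 : (k : ℝ) ≤ 3 * s := by exact_mod_cast h3s
    have hk0 : (0 : ℝ) ≤ k := Nat.cast_nonneg _
    have hff' : ((m : ℝ) + 1) * s ≤ (ffNumber (Gr : SimpleGraph (Vt m s k (n - k - s * 2 ^ m))) : ℝ) := by
      exact_mod_cast hff
    calc 1 / 6 * (k : ℝ) * Real.log n ≤ 1 / 6 * (k : ℝ) * (2 * (m + 1)) :=
          mul_le_mul_of_nonneg_left hlog (by positivity)
      _ = (k : ℝ) / 3 * (m + 1) := by ring
      _ ≤ s * (m + 1) := by
          apply mul_le_mul_of_nonneg_right _ (by positivity)
          linarith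
      _ = ((m : ℝ) + 1) * s := by ring
      _ ≤ _ := hff'

end Pool.Agent.Results.MP_4aa424_co.FirstFitChordal
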